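import Pool.Agent.H.MP_c74059_gt.A

set_option autoImplicit false

namespace Pool.Agent.H.MP_f53fb8_an

open Filter Topology Finset

noncomputable def g (q t : ℝ) : ℝ := |t| / (1 + |t|) ^ q

noncomputable def th (t : ℝ) : ℝ := |t| + √|t|

theorem th_nonneg (t : ℝ) : 0 ≤ th t := by unfold th; positivity

theorem w_pos (q t : ℝ) : 0 < (1 + |t|) ^ q := by positivity

theorem g_nonneg (q t : ℝ) : 0 ≤ g q t := by unfold g; positivity

theorem g_zero (q : ℝ) : g q 0 = 0 := by simp [g]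

theorem g_neg (q t : ℝ) : g q (-t) = g q t := by simp [g]

theorem g_eq {q t : ℝ} (h : g q t ≤ 0) : t = 0 := by
  by_contra c
  exact absurd h (not_le.2 (div_pos (abs_pos.2 c) (w_pos q t)))

theorem g_anti {q r : ℝ} (h : q ≤ r) (t : ℝ) : g r t ≤ g q t :=
  div_le_div_of_nonneg_left (abs_nonneg _) (w_pos q t)
    (Real.rpow_le_rpow_of_exponent_le (by linarith [abs_nonneg t]) h)

theorem g_le {q : ℝ} (h : 0 ≤ q) (t : ℝ) : g q t ≤ |t| := by simpa [g] using g_anti h t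

theorem g_mono {q s t : ℝ} (h : q ≤ 1) (hst : |s| ≤ |t|) : g q s ≤ g q t := by
  have e : ∀ u : ℝ, g q u = |u| / (1 + |u|) * (1 + |u|) ^ (1 - q) := fun u => by
    have p : 0 < 1 + |u| := by positivity
    have := w_pos q u
    rw [g, Real.rpow_sub p, Real.rpow_one]; field_simp
  rw [e, e]
  refine mul_le_mul ?_ (Real.rpow_le_rpow (by positivity) (by linarith) (by linarith))
    (by positivity) (by positivity)
  rw [div_le_div_iff₀ (by positivity) (by positivity)]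
  nlinarith

theorem g_add {q : ℝ} (h0 : 0 ≤ q) (h : q ≤ 1) (s t : ℝ) : g q (s + t) ≤ g q s + g q t := by
  have p : 0 ≤ |s| + |t| := by positivity
  refine (g_mono (t := |s| + |t|) h (by rw [abs_of_nonneg p]; exact abs_add_le s t)).trans ?_
  rw [g, abs_of_nonneg p, add_div]
  exact add_le_add (div_le_div_of_nonneg_left (abs_nonneg _) (w_pos q s)
      (Real.rpow_le_rpow (by positivity) (by linarith [abs_nonneg t]) h0))
    (div_le_div_of_nonneg_left (abs_nonneg _) (w_pos q t)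
      (Real.rpow_le_rpow (by positivity) (by linarith [abs_nonneg s]) h0))

theorem g_mul {q A c : ℝ} (h0 : 0 ≤ q) (hA : 1 ≤ A) (hc : 1 ≤ A * |c|) (t : ℝ) :
    g q (c * t) ≤ |c| * A ^ q * g q t := by
  have h1 : (1 + |t|) ^ q ≤ A ^ q * (1 + |c * t|) ^ q := by
    rw [← Real.mul_rpow (by linarith) (by positivity), abs_mul]
    exact Real.rpow_le_rpow (by positivity) (by nlinarith [abs_nonneg t]) h0
  rw [g, g, ← mul_div_assoc, div_le_div_iff₀ (w_pos _ _) (w_pos _ _)]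
  calc |c * t| * (1 + |t|) ^ q ≤ |c * t| * (A ^ q * (1 + |c * t|) ^ q) := by gcongr
    _ = _ := by rw [abs_mul c t]; ring

theorem g_th {q : ℝ} (h0 : 0 ≤ q) (h : q ≤ 1 / 2) (c t : ℝ) : g q (c * t) ≤ th c * g q t := by
  rcases eq_or_ne c 0 with rfl | hc
  · simp [g_zero, th]
  have p := abs_pos.2 hc
  rcases le_total 1 |c| with h1 | h1
  · refine (g_mul h0 le_rfl (by simpa) t).trans (mul_le_mul_of_nonneg_right ?_ (g_nonneg _ _))
    simp [th]
  · have h2 : 1 ≤ |c|⁻¹ := (one_le_inv₀ p).2 h1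
    refine (g_mul h0 h2 (by rw [inv_mul_cancel₀ p.ne']) t).trans
      (mul_le_mul_of_nonneg_right ?_ (g_nonneg _ _))
    have h3 : |c|⁻¹ ^ q ≤ (√|c|)⁻¹ := by
      rw [← Real.sqrt_inv, Real.sqrt_eq_rpow]; exact Real.rpow_le_rpow_of_exponent_le h2 h
    have h4 : |c| * (√|c|)⁻¹ = √|c| := Real.div_sqrt
    have := mul_le_mul_of_nonneg_left h3 p.le
    unfold th; linarith

theorem g_inv {q t S : ℝ} (h : q ≤ 1 / 2) (hS : g q t ≤ S) : |t| ≤ (S + 1) * g q t := by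
  have p : 0 < 1 + |t| := by positivity
  have h1 : (1 + |t|) ^ q ≤ √(1 + |t|) := by
    rw [Real.sqrt_eq_rpow]; exact Real.rpow_le_rpow_of_exponent_le (by linarith [abs_nonneg t]) h
  have h2 : |t| = g q t * (1 + |t|) ^ q := (div_mul_cancel₀ _ (w_pos q t).ne').symm
  have h3 := Real.mul_self_sqrt p.le
  have h4 := Real.sqrt_pos.2 p
  have h5 := g_nonneg q t
  have h6 : |t| ≤ S * √(1 + |t|) := h2.trans_le (mul_le_mul hS h1 (w_pos _ _).le (h5.trans hS))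
  have h7 : √(1 + |t|) ≤ S + 1 := by
    by_contra c
    push Not at c
    nlinarith
  calc |t| = g q t * (1 + |t|) ^ q := h2
    _ ≤ g q t * (S + 1) := mul_le_mul_of_nonneg_left (h1.trans h7) h5
    _ = _ := mul_comm _ _

abbrev F : Type := ℕ × ℕ →₀ ℝ

def low (m : ℕ) : Submodule ℝ F where
  carrier := {v | ∀ a : ℕ × ℕ, m ≤ a.1 → v a = 0}
  add_mem' := fun h1 h2 a h => by simp [h1 a h, h2 a h]
  zero_mem' := fun _ _ => rfl
  smul_mem' := fun c _ h1 a h => by simp [h1 a h]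

theorem low_ev (v : F) : ∀ᶠ m in atTop, v ∈ low m := by
  filter_upwards [eventually_gt_atTop (v.support.sup Prod.fst)] with m hm a ha
  by_contra c
  have := Finset.le_sup (f := Prod.fst) (Finsupp.mem_support_iff.2 c)
  omega

theorem low_mono {k m : ℕ} (h : k ≤ m) {v : F} (hv : v ∈ low k) : v ∈ low m :=
  fun a ha => hv a (h.trans ha)

structure Par where
  x : ℕ → F
  n : ℕ → ℕ
  q : ℕ → ℝ
  κ : ℕ → ℝ
  A : ℕ → ℝ
  hx : ∀ k, x k ∈ low k
  q0 : ∀ k, 0 < q k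
  q1 : ∀ k, q k ≤ 1 / 2
  κ0 : ∀ k, 0 < κ k
  A1 : ∀ k, 1 ≤ A k
  nk : ∀ k, k < n k
  qa : ∀ j k, j < k → q k ≤ q j
  Aq : ∀ j k, j < k → A j ^ q k ≤ 2
  C : ∀ k, ∑ b ∈ (x k).support, κ b.1 * th (x k b) ≤ n k * κ k
  K : ∀ j k, j < k → n k * (k + 1) * (1 / κ j + 1) ≤ A k
  K2 : ∀ k, n k * (k + 1) * 2 ≤ A k
  sm : ∀ k, κ k * g (q k) (A k) ≤ 1 / (k + 1)

theorem par (x : ℕ → F) (hx : ∀ k, x k ∈ low k) : ∃ P : Par, P.x = x := by
  obtain ⟨f, hf⟩ := MP_c74059_gt.wf_choice (I := ℕ) (A := ℕ × ℝ × ℝ × ℝ)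
    (fun k f a => (0 < a.2.1 ∧ a.2.1 ≤ 1 / 2 ∧ 0 < a.2.2.1 ∧ 1 ≤ a.2.2.2 ∧ k < a.1 ∧
      a.1 * (k + 1 : ℝ) * 2 ≤ a.2.2.2 ∧ a.2.2.1 * g a.2.1 a.2.2.2 ≤ 1 / (k + 1)) ∧
      (∀ j, j < k → a.2.1 ≤ (f j).2.1 ∧ (f j).2.2.2 ^ a.2.1 ≤ 2 ∧
        a.1 * (k + 1 : ℝ) * (1 / (f j).2.2.1 + 1) ≤ a.2.2.2) ∧
      ∑ b ∈ (x k).support, (f b.1).2.2.1 * th (x k b) ≤ a.1 * a.2.2.1)
    (fun k f f' a h ⟨h1, h2, h3⟩ => ⟨h1, fun j hj => h j hj ▸ h2 j hj, by
      refine (sum_congr rfl fun b hb => ?_).trans_le h3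
      rw [h b.1 (not_le.1 fun c => Finsupp.mem_support_iff.1 hb (hx k b c))]⟩)
    (fun k f h => by
      have e0 : ∀ r : ℝ, 0 < r → ∀ᶠ q in 𝓝[>] (0 : ℝ), q ≤ r := fun r hr =>
        (ge_mem_nhds hr).filter_mono nhdsWithin_le_nhds
      obtain ⟨q, q0, q1, q2⟩ := ((show ∀ᶠ q in 𝓝[>] (0 : ℝ), 0 < q from self_mem_nhdsWithin).and
        ((e0 (1 / 2) (by norm_num)).and ((eventually_all_finset (range k)).2 fun j hj =>
          (e0 _ (h j (mem_range.1 hj)).1.1).and (show ∀ᶠ q in 𝓝[>] (0 : ℝ), (f j).2.2.2 ^ q ≤ 2 from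
            ((Real.continuousAt_const_rpow (b := 0) (by
              linarith [(h j (mem_range.1 hj)).1.2.2.2.1])).eventually
              (ge_mem_nhds (by simp))).filter_mono nhdsWithin_le_nhds)))).exists
      have t0 : ∀ j ∈ range k, 0 ≤ 1 / (f j).2.2.1 + 1 := fun j hj => by
        have := (h j (mem_range.1 hj)).1.2.2.1; positivity
      have K1 : ∀ j < k, 1 / (f j).2.2.1 + 1 ≤ 2 + ∑ j ∈ range k, (1 / (f j).2.2.1 + 1) :=
        fun j hj => by linarith [single_le_sum t0 (mem_range.2 hj)]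
      have K2 : 2 ≤ 2 + ∑ j ∈ range k, (1 / (f j).2.2.1 + 1) := by linarith [sum_nonneg t0]
      generalize 2 + ∑ j ∈ range k, (1 / (f j).2.2.1 + 1) = K at K1 K2
      generalize ∑ b ∈ (x k).support, (f b.1).2.2.1 * th (x k b) = C
      obtain ⟨n, n1, n2⟩ := ((eventually_gt_atTop k).and (((tendsto_rpow_atTop q0).comp
        tendsto_natCast_atTop_atTop).eventually_ge_atTop
          ((|C| + 1) * (k + 1) * K * (k + 1)))).exists
      have n3 : (1 : ℝ) ≤ n := by exact_mod_cast (by omega : 1 ≤ n)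
      have k1 : (1 : ℝ) ≤ k + 1 := by linarith [Nat.cast_nonneg (α := ℝ) k]
      have n4 : (n : ℝ) ≤ n * (k + 1) := by nlinarith
      have n5 : (n : ℝ) ≤ n * (k + 1) * K := by nlinarith
      refine ⟨(n, q, (|C| + 1) / n, n * (k + 1) * K), ⟨q0, q1, by positivity, by linarith, n1,
        by dsimp only; gcongr, ?_⟩, fun j hj => ⟨(q2 j (mem_range.2 hj)).1,
        (q2 j (mem_range.2 hj)).2, by dsimp only; gcongr; exact K1 j hj⟩, ?_⟩
      · dsimp only
        have := Real.rpow_le_rpow (by linarith) (show (n : ℝ) ≤ 1 + n * (k + 1) * K by linarith) q0.le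
        rw [g, abs_of_nonneg (show 0 ≤ n * (k + 1 : ℝ) * K by linarith), ← mul_div_assoc,
          div_le_div_iff₀ (by positivity) (by linarith), one_mul]
        refine le_trans (le_of_eq ?_) (n2.trans this)
        field_simp
      · dsimp only
        rw [mul_div_cancel₀ _ (by linarith)]
        linarith [le_abs_self C])
  exact ⟨⟨x, fun k => (f k).1, fun k => (f k).2.1, fun k => (f k).2.2.1, fun k => (f k).2.2.2, hx,
    fun k => (hf k).1.1, fun k => (hf k).1.2.1, fun k => (hf k).1.2.2.1, fun k => (hf k).1.2.2.2.1,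
    fun k => (hf k).1.2.2.2.2.1, fun j k h => ((hf k).2.1 j h).1, fun j k h => ((hf k).2.1 j h).2.1,
    fun k => (hf k).2.2, fun j k h => ((hf k).2.1 j h).2.2, fun k => (hf k).1.2.2.2.2.2.1,
    fun k => (hf k).1.2.2.2.2.2.2⟩, rfl⟩

end Pool.Agent.H.MP_f53fb8_an
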