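import Pool.Agent.H.MP_f53fb8_an.A

set_option autoImplicit false

namespace Pool.Agent.H.MP_f53fb8_an

open Filter Topology Finset

namespace Par

variable (P : Par)

noncomputable def φ (c : F) (a : ℕ × ℕ) : ℝ := P.κ a.1 * g (P.q a.1) (c a)

noncomputable def Ψ (c : F) : ℝ := ∑' a, P.φ c a

theorem φ_nonneg (c : F) (a : ℕ × ℕ) : 0 ≤ P.φ c a := mul_nonneg (P.κ0 _).le (g_nonneg _ _)

theorem φ_zero {c : F} {a : ℕ × ℕ} (h : c a = 0) : P.φ c a = 0 := by simp [φ, h, g_zero]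

theorem sumb (c : F) : Summable (P.φ c) :=
  summable_of_ne_finset_zero (s := c.support) fun _ h => P.φ_zero (Finsupp.notMem_support_iff.1 h)

theorem Ψ_nonneg (c : F) : 0 ≤ P.Ψ c := tsum_nonneg (P.φ_nonneg c)

theorem φ_le (c : F) (a : ℕ × ℕ) : P.φ c a ≤ P.Ψ c :=
  (P.sumb c).le_tsum a fun b _ => P.φ_nonneg c b

theorem Ψ_le {u v : F} {C : ℝ} (h : ∀ a, P.φ u a ≤ C * P.φ v a) : P.Ψ u ≤ C * P.Ψ v := by
  rw [Ψ, Ψ, ← tsum_mul_left]
  exact (P.sumb u).tsum_le_tsum h ((P.sumb v).mul_left C)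

theorem Ψ_add (u v : F) : P.Ψ (u + v) ≤ P.Ψ u + P.Ψ v := by
  rw [Ψ, Ψ, Ψ, ← (P.sumb u).tsum_add (P.sumb v)]
  refine (P.sumb _).tsum_le_tsum (fun a => ?_) ((P.sumb u).add (P.sumb v))
  simp only [φ, ← mul_add, Finsupp.add_apply]
  exact mul_le_mul_of_nonneg_left (g_add (P.q0 _).le (by linarith [P.q1 a.1]) _ _) (P.κ0 _).le

theorem Ψ_disj {u v : F} (h : ∀ a, u a = 0 ∨ v a = 0) : P.Ψ (u + v) = P.Ψ u + P.Ψ v := by
  rw [Ψ, Ψ, Ψ, ← (P.sumb u).tsum_add (P.sumb v)]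
  refine tsum_congr fun a => ?_
  rcases h a with h | h <;> simp [φ, h, g_zero]

theorem Ψ_neg (u : F) : P.Ψ (-u) = P.Ψ u := tsum_congr fun a => by simp [φ, g_neg]

theorem Ψ_zero : P.Ψ 0 = 0 := by simp [Ψ, φ, g_zero]

theorem Ψ_smul (t : ℝ) (u : F) : P.Ψ (t • u) ≤ th t * P.Ψ u := P.Ψ_le fun a => by
  simp only [φ, Finsupp.smul_apply, smul_eq_mul]
  rw [mul_left_comm]
  exact mul_le_mul_of_nonneg_left (g_th (P.q0 _).le (P.q1 _) _ _) (P.κ0 _).le

noncomputable def blk (k : ℕ) : F := ∑ i ∈ range (P.n k), Finsupp.single (k, i) 1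

theorem blk_apply (k : ℕ) (a : ℕ × ℕ) : P.blk k a = if a.1 = k ∧ a.2 < P.n k then 1 else 0 := by
  obtain ⟨j, i⟩ := a
  simp only [blk, Finsupp.finsetSum_apply, Finsupp.single_apply, Prod.mk.injEq]
  by_cases h : j = k
  · simp [h]
  · simp [h, Ne.symm h]

theorem x_blk (k : ℕ) (t : ℝ) : P.Ψ (t • P.x k) ≤ P.Ψ (t • P.blk k) := by
  have h1 : P.Ψ (t • P.x k) = ∑ b ∈ (P.x k).support, P.φ (t • P.x k) b :=
    tsum_eq_sum fun b hb => P.φ_zero (by simp [Finsupp.notMem_support_iff.1 hb])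
  have h2 := (P.sumb (t • P.blk k)).sum_le_tsum ({k} ×ˢ range (P.n k))
    fun b _ => P.φ_nonneg _ b
  have h3 : ∑ b ∈ {k} ×ˢ range (P.n k), P.φ (t • P.blk k) b = P.n k * P.κ k * g (P.q k) t := by
    rw [sum_product, sum_singleton, sum_congr rfl (g := fun _ => P.κ k * g (P.q k) t) fun i hi => by
      simp [φ, blk_apply, mem_range.1 hi]]
    simp [mul_assoc]
  rw [h1]
  refine le_trans ?_ (h3 ▸ h2)
  refine le_trans ?_ (mul_le_mul_of_nonneg_right (P.C k) (g_nonneg _ _))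
  rw [sum_mul]
  refine sum_le_sum fun b hb => ?_
  have hb' : b.1 < k := not_le.1 fun c => Finsupp.mem_support_iff.1 hb (P.hx k b c)
  simp only [φ, Finsupp.smul_apply, smul_eq_mul]
  rw [mul_assoc, mul_comm t]
  exact mul_le_mul_of_nonneg_left ((g_anti (P.qa _ _ hb') _).trans
    (g_th (P.q0 _).le (P.q1 _) _ _)) (P.κ0 _).le

noncomputable def ρ (k : ℕ) : F := P.blk k - P.x k

theorem ρ_low {j m : ℕ} (h : j < m) : P.ρ j ∈ low m :=
  Submodule.sub_mem _ (fun a ha => by rw [blk_apply, if_neg (by omega)]) (low_mono h.le (P.hx j))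

noncomputable def S : Submodule ℝ F := Submodule.span ℝ (Set.range P.ρ)

theorem ρ_mem (k : ℕ) : P.ρ k ∈ P.S := Submodule.subset_span ⟨k, rfl⟩

noncomputable def N (v : F) : ℝ := ⨅ r : P.S, P.Ψ (v - r)

theorem N_le (v : F) {r : F} (h : r ∈ P.S) : P.N v ≤ P.Ψ (v - r) :=
  ciInf_le ⟨0, by rintro _ ⟨r, rfl⟩; exact P.Ψ_nonneg _⟩ (⟨r, h⟩ : P.S)

theorem N_nonneg (v : F) : 0 ≤ P.N v := le_ciInf fun _ => P.Ψ_nonneg _

theorem N_lt {v : F} {η : ℝ} (h : P.N v < η) : ∃ r ∈ P.S, P.Ψ (v - r) < η :=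
  let ⟨r, hr⟩ := exists_lt_of_ciInf_lt h
  ⟨r, r.2, hr⟩

theorem N_S {r : F} (h : r ∈ P.S) : P.N r = 0 :=
  le_antisymm ((P.N_le r h).trans_eq (by rw [sub_self, Ψ_zero])) (P.N_nonneg r)

theorem N_add (u v : F) : P.N (u + v) ≤ P.N u + P.N v :=
  le_ciInf_add_ciInf fun r s => (P.N_le _ (P.S.add_mem r.2 s.2)).trans
    (by rw [add_sub_add_comm]; exact P.Ψ_add _ _)

theorem N_neg (u : F) : P.N (-u) = P.N u := by
  have : ∀ u, P.N (-u) ≤ P.N u := fun u => le_ciInf fun r =>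
    (P.N_le _ (P.S.neg_mem r.2)).trans_eq (by rw [← P.Ψ_neg]; congr 1; abel)
  exact le_antisymm (this u) (by simpa using this (-u))

theorem N_smul (t : ℝ) (u : F) : P.N (t • u) ≤ th t * P.N u := by
  rw [N, N, Real.mul_iInf_of_nonneg (th_nonneg t)]
  exact le_ciInf fun r => (P.N_le _ (P.S.smul_mem t r.2)).trans
    (by rw [← smul_sub]; exact P.Ψ_smul _ _)

theorem elim {k : ℕ} {v : F} (hv : v ∈ low (k + 1)) {η : ℝ} (h : P.N v < η) :
    ∃ r ∈ P.S, r ∈ low k ∧ ∃ t : ℝ, P.Ψ (v - r - t • P.ρ k) < η := by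
  obtain ⟨r, hr, h⟩ := P.N_lt h
  obtain ⟨t, rfl⟩ := Finsupp.mem_span_range_iff_exists_finsupp.1 hr
  have sl : ∀ m, ∑ j ∈ range m, t j • P.ρ j ∈ low m := fun m =>
    Submodule.sum_mem _ fun j hj => Submodule.smul_mem _ _ (P.ρ_low (mem_range.1 hj))
  have key : ∀ m, k + 1 ≤ m → P.Ψ (v - ∑ j ∈ range (k + 1), t j • P.ρ j) ≤
      P.Ψ (v - ∑ j ∈ range m, t j • P.ρ j) := fun m hm => by
    induction m, hm using Nat.le_induction with
    | base => rfl
    | succ m hm ih =>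
      refine ih.trans ?_
      have hw := Submodule.sub_mem _ (low_mono hm hv) (sl m)
      rw [sum_range_succ, ← sub_sub]
      generalize v - ∑ j ∈ range m, t j • P.ρ j = w at hw
      have hu := Submodule.add_mem _ hw (Submodule.smul_mem _ (t m) (P.hx m))
      have e : w - t m • P.ρ m = w + t m • P.x m + -t m • P.blk m := by
        rw [ρ, smul_sub, neg_smul]; abel
      rw [e, P.Ψ_disj fun a => (le_or_gt m a.1).imp (hu a) fun c => by
        simp [blk_apply, c.ne]]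
      have := P.Ψ_add (w + t m • P.x m) (-t m • P.x m)
      rw [neg_smul, add_neg_cancel_right, ← neg_smul] at this
      linarith [P.x_blk m (-t m)]
  refine ⟨∑ j ∈ range k, t j • P.ρ j, Submodule.sum_mem _ fun j _ => P.S.smul_mem _ (P.ρ_mem j),
    sl k, t k, ?_⟩
  rw [sub_sub, ← sum_range_succ fun j => t j • P.ρ j]
  refine (key (t.support.sup id + (k + 1)) (by omega)).trans_lt ?_
  rwa [Finsupp.sum_of_support_subset t (s := range (t.support.sup id + (k + 1)))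
    (fun j hj => mem_range.2 (by have := le_sup (f := id) hj; simp only [id] at this; omega)) _
    (by simp)] at h

theorem line {k : ℕ} {y z : F} (hy : y ∈ low k) (hz : ∀ a : ℕ × ℕ, a.1 ≠ k → z a = 0) {η : ℝ}
    (h : P.N (y - z) < η) : ∃ t : ℝ, P.N (y - t • P.x k) < η := by
  obtain ⟨r, hr, r1, t, h⟩ := P.elim (k := k) (Submodule.sub_mem _ (low_mono k.le_succ hy)
    fun a ha => hz a (by omega)) h
  refine ⟨-t, (P.N_le _ hr).trans_lt (lt_of_le_of_lt ?_ h)⟩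
  refine (P.Ψ_le (C := 1) fun a => ?_).trans_eq (one_mul _)
  rcases le_or_gt k a.1 with c | c
  · rw [P.φ_zero (by simp [hy a c, r1 a c, P.hx k a c]), one_mul]; exact P.φ_nonneg _ _
  · simp only [φ, ρ, one_mul, Finsupp.sub_apply, Finsupp.smul_apply, blk_apply, c.ne, hz a c.ne,
      false_and, if_false, smul_eq_mul]
    exact le_of_eq (by congr 2; ring)

theorem indep (k : ℕ) (a : Fin k → ℝ)
    (h : P.N (∑ i, a i • Finsupp.single (k, (i : ℕ)) (1 : ℝ)) = 0) (i : Fin k) : a i = 0 := by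
  refine g_eq (q := P.q k) (le_of_mul_le_mul_left ?_ (P.κ0 k))
  refine le_of_forall_pos_le_add fun η hη => ?_
  obtain ⟨r, -, r1, t, h⟩ := P.elim (k := k) (η := η / 2) (Submodule.sum_mem _ fun j _ =>
    Submodule.smul_mem _ (a j) fun b hb => Finsupp.single_eq_of_ne (by rintro rfl; omega))
    (h.trans_lt (half_pos hη))
  have h1 := (P.φ_le _ (k, i)).trans h.le
  have h2 := (P.φ_le _ (k, k)).trans h.le
  have n1 := P.nk k
  have n2 : (i : ℕ) < P.n k := i.2.trans n1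
  have n3 : ∀ j : Fin k, (j : ℕ) ≠ k := fun j => j.2.ne
  simp [φ, ρ, blk_apply, Finsupp.single_apply, r1 (k, i) le_rfl, r1 (k, k) le_rfl, n1, n2, n3,
    P.hx k (k, i) le_rfl, P.hx k (k, k) le_rfl, Fin.val_inj, g_neg] at h1 h2
  have := mul_le_mul_of_nonneg_left (g_add (P.q0 k).le (by linarith [P.q1 k]) (a i - t) t)
    (P.κ0 k).le
  rw [sub_add_cancel] at this
  linarith

theorem N_sum (s : Finset ℕ) (u : ℕ → F) : P.N (∑ i ∈ s, u i) ≤ ∑ i ∈ s, P.N (u i) :=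
  le_sum_of_subadditive P.N (P.N_S P.S.zero_mem).le P.N_add s u

theorem core {k : ℕ} {y : F} (hy : y ∈ low k) {η : ℝ} (hη : 1 / (k + 1 : ℝ) < η) :
    ∃ (n : ℕ) (A : ℝ) (w : ℕ → F), 1 ≤ A ∧ (∀ i, P.N (w i) < η) ∧
      P.N (P.x k - A⁻¹ • ∑ i ∈ range n, w i) = 0 ∧ ∀ c : ℕ → F, (∀ i, P.N (c i) < 1) →
        ∃ t : ℝ, P.N (y - t • P.x k) < P.N (y - A⁻¹ • ∑ i ∈ range n, c i) + η := by
  have A1 := P.A1 k
  have A0 : 0 < P.A k := by linarith
  refine ⟨P.n k, P.A k, fun i => P.A k • Finsupp.single (k, i) 1, A1, fun i => ?_, ?_,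
    fun c hc => ?_⟩
  · refine ((P.N_le _ P.S.zero_mem).trans ?_).trans_lt hη
    rw [sub_zero, Ψ, tsum_eq_single (k, i) fun b hb => P.φ_zero (by simp [hb])]
    simpa [φ] using P.sm k
  · rw [← smul_sum, inv_smul_smul₀ A0.ne', ← blk, ← neg_sub]
    exact P.N_S (P.S.neg_mem (P.ρ_mem k))
  choose r hr h using fun i => P.N_lt (hc i)
  refine P.line (z := (P.A k)⁻¹ • ∑ i ∈ range (P.n k), (c i - r i).filter fun a => a.1 = k) hy
    (fun a ha => by simp [ha]) ?_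
  have n0 : (0 : ℝ) < P.n k := by exact_mod_cast (Nat.zero_le k).trans_lt (P.nk k)
  have h1 : ∀ i, P.N ((P.A k)⁻¹ • (c i - r i).filter fun a => ¬a.1 = k) ≤ (P.n k * (k + 1 : ℝ))⁻¹ :=
    fun i => by
    refine (P.N_le _ P.S.zero_mem).trans ?_
    rw [sub_zero]
    refine (P.Ψ_le (C := (P.n k * (k + 1 : ℝ))⁻¹) (v := c i - r i) fun a => ?_).trans
      (mul_le_of_le_one_right (by positivity) (h i).le)
    have h2 := (P.φ_le _ a).trans (h i).le
    generalize c i - r i = u at *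
    have κ0 := P.κ0 a.1
    have g0 := g_nonneg (P.q a.1) (u a)
    have i0 := inv_pos.2 A0
    have fin : ∀ L : ℝ, P.n k * (k + 1) * L ≤ P.A k → a.1 ≠ k →
        g (P.q a.1) ((P.A k)⁻¹ * u a) ≤ (P.A k)⁻¹ * L * g (P.q a.1) (u a) →
        P.φ ((P.A k)⁻¹ • u.filter fun a => ¬a.1 = k) a ≤ (P.n k * (k + 1 : ℝ))⁻¹ * P.φ u a :=
      fun L hL c h3 => by
      simp only [φ, Finsupp.smul_apply, Finsupp.filter_apply, c, not_false_eq_true, if_true,
        smul_eq_mul]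
      rw [mul_left_comm]
      refine mul_le_mul_of_nonneg_left (h3.trans (mul_le_mul_of_nonneg_right ?_ g0)) κ0.le
      rwa [inv_mul_le_iff₀ A0, ← div_eq_mul_inv, le_div_iff₀' (by positivity)]
    rcases lt_trichotomy a.1 k with c | c | c
    · refine fin _ (P.K _ _ c) c.ne ((g_le (P.q0 _).le _).trans ?_)
      rw [abs_mul, abs_of_pos i0, mul_assoc]
      exact mul_le_mul_of_nonneg_left (g_inv (P.q1 _) ((le_div_iff₀' κ0).2 h2)) i0.le
    · rw [P.φ_zero (by simp [c])]; exact mul_nonneg (by positivity) (P.φ_nonneg _ _)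
    · refine fin _ (P.K2 k) c.ne' ((g_mul (P.q0 _).le A1
        (by rw [abs_of_pos i0, mul_inv_cancel₀ A0.ne']) _).trans ?_)
      rw [abs_of_pos i0]
      gcongr
      exact P.Aq _ _ c
  have h2 := (P.N_sum (range (P.n k)) _).trans (sum_le_sum fun i _ => h1 i)
  rw [sum_const, card_range, nsmul_eq_mul, mul_inv, mul_inv_cancel_left₀ n0.ne', ← smul_sum] at h2
  rw [one_div] at hη
  have h3 := P.N_S (P.S.smul_mem (P.A k)⁻¹ (P.S.sum_mem (t := range (P.n k)) fun i _ => hr i))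
  have e : y - (P.A k)⁻¹ • ∑ i ∈ range (P.n k), (c i - r i).filter (fun a => a.1 = k) =
      y - (P.A k)⁻¹ • ∑ i ∈ range (P.n k), c i + ((P.A k)⁻¹ • ∑ i ∈ range (P.n k), r i +
        (P.A k)⁻¹ • ∑ i ∈ range (P.n k), (c i - r i).filter fun a => ¬a.1 = k) := by
    have : ∑ i ∈ range (P.n k), c i = ∑ i ∈ range (P.n k), r i +
        ∑ i ∈ range (P.n k), (c i - r i).filter (fun a => ¬a.1 = k) +
        ∑ i ∈ range (P.n k), (c i - r i).filter (fun a => a.1 = k) := by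
      rw [← sum_add_distrib, ← sum_add_distrib]
      refine sum_congr rfl fun i _ => ?_
      rw [add_assoc, add_comm (Finsupp.filter _ _), Finsupp.filter_add_filter_not]; abel
    rw [this, smul_add, smul_add]; abel
  rw [e]
  refine (P.N_add _ _).trans_lt ?_
  linarith [P.N_add ((P.A k)⁻¹ • ∑ i ∈ range (P.n k), r i)
    ((P.A k)⁻¹ • ∑ i ∈ range (P.n k), (c i - r i).filter fun a => ¬a.1 = k)]

end Par

end Pool.Agent.H.MP_f53fb8_an
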