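import Pool.Agent.H.MP_f53fb8_an.B

set_option autoImplicit false

namespace Pool.Agent.H.MP_f53fb8_an

open Filter Topology Finset UniformSpace

theorem th_cont : Continuous th := by unfold th; fun_prop

theorem th_zero : th 0 = 0 := by simp [th]

theorem nohyp (R : Type) [NormedAddCommGroup R] [Module ℝ R] [ContinuousSMul ℝ R]
    (h1 : ∀ (t : ℝ) (v : R), ‖t • v‖ ≤ th t * ‖v‖) (h2 : ∀ T : R →L[ℝ] R, ∃ c : ℝ, ∀ v, T v = c • v)
    (h3 : ¬ FiniteDimensional ℝ R) (T : R × (ℕ → ℝ) →L[ℝ] R × (ℕ → ℝ)) (x : R × (ℕ → ℝ)) :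
    ¬ Dense (Set.range fun n : ℕ => (⇑T)^[n] x) := fun hd => by
  classical
  obtain ⟨c, hc⟩ := h2 (.fst ℝ R _ ∘L T ∘L .inl ℝ R _)
  set B : (ℕ → ℝ) →L[ℝ] R := .fst ℝ R _ ∘L T ∘L .inr ℝ R _ with hB
  have hU : B ⁻¹' Metric.ball 0 1 ∈ 𝓝 (0 : ℕ → ℝ) :=
    B.continuous.continuousAt.preimage_mem_nhds (by simpa using Metric.ball_mem_nhds _ one_pos)
  rw [nhds_pi, mem_pi] at hU
  obtain ⟨I, hI, t, ht, hU⟩ := hU
  have b0 : ∀ s : ℕ → ℝ, (∀ i ∈ I, s i = 0) → B s = 0 := fun s hs => by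
    have : Tendsto (fun a : ℝ => th a * 1) (𝓝[≠] 0) (𝓝 (th 0 * 1)) :=
      ((th_cont.tendsto 0).mul_const 1).mono_left nhdsWithin_le_nhds
    rw [th_zero, zero_mul] at this
    refine norm_le_zero_iff.1 (ge_of_tendsto this (eventually_nhdsWithin_of_forall fun a ha => ?_))
    have h4 := hU (show a⁻¹ • s ∈ I.pi t from fun i hi => by
      simpa [hs i hi] using mem_of_mem_nhds (ht i))
    rw [Set.mem_preimage, mem_ball_zero_iff, map_smul] at h4
    have := h1 a (a⁻¹ • B s)
    rw [smul_inv_smul₀ ha] at this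
    exact this.trans (mul_le_mul_of_nonneg_left h4.le (th_nonneg a))
  let E : Submodule ℝ R := Submodule.span ℝ (insert x.1 ((fun i => B (Pi.single i 1)) '' I))
  have : FiniteDimensional ℝ E := FiniteDimensional.span_of_finite ℝ ((hI.image _).insert _)
  have bE : ∀ s, B s ∈ E := fun s => by
    have := b0 (s - ∑ i ∈ hI.toFinset, s i • Pi.single i 1) fun i hi => by
      simp [Finset.sum_apply, Pi.single_apply, hi]
    rw [map_sub, sub_eq_zero, map_sum] at this
    rw [this]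
    exact E.sum_mem fun i hi => by
      rw [map_smul]
      exact E.smul_mem _ (Submodule.subset_span (Or.inr ⟨i, hI.mem_toFinset.1 hi, rfl⟩))
  have hE : ∀ n, ((⇑T)^[n] x).1 ∈ E := fun n => by
    induction n with
    | zero => exact Submodule.subset_span (Or.inl rfl)
    | succ n ih =>
      rw [Function.iterate_succ_apply']
      generalize (⇑T)^[n] x = y at ih
      have : (T y).1 = c • y.1 + B y.2 := by
        rw [← hc, hB]; simp [← Prod.fst_add, ← map_add]
      rw [this]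
      exact E.add_mem (E.smul_mem _ ih) (bE _)
  have hT : E = ⊤ := eq_top_iff.2 fun v _ =>
    (E.closed_of_finiteDimensional.preimage (continuous_fst (Y := ℕ → ℝ))).closure_subset_iff.2
      (Set.range_subset_iff.2 hE) (hd (v, 0))
  exact h3 (Module.Finite.equiv (LinearEquiv.ofTop E hT))

theorem scal {R : Type} [AddCommGroup R] [Module ℝ R] (T : R →ₗ[ℝ] R) (D : AddSubgroup R)
    (h : ∀ d ∈ D, ∃ t : ℝ, T d = t • d) : ∃ c : ℝ, ∀ d ∈ D, T d = c • d := by
  by_cases h0 : ∀ d ∈ D, d = 0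
  · exact ⟨0, fun d hd => by simp [h0 d hd]⟩
  push Not at h0
  obtain ⟨e, he, e0⟩ := h0
  obtain ⟨c, hc⟩ := h e he
  refine ⟨c, fun d hd => ?_⟩
  obtain ⟨a, ha⟩ := h d hd
  obtain ⟨b, hb⟩ := h _ (D.add_mem hd he)
  rw [map_add, ha, hc] at hb
  have h1 : (a - b) • d = (b - c) • e := by
    rw [sub_smul, sub_smul, sub_eq_sub_iff_add_eq_add, hb, smul_add, add_comm]
  by_cases hab : a = b
  · rw [hab, sub_self, zero_smul, eq_comm, smul_eq_zero_iff_left e0, sub_eq_zero] at h1
    rw [ha, hab, h1]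
  · have : d = (a - b)⁻¹ • (b - c) • e := by rw [← h1, inv_smul_smul₀ (sub_ne_zero.2 hab)]
    rw [this, map_smul, map_smul, hc, smul_comm c, smul_comm c]

theorem gen (V : Type) [SeminormedAddCommGroup V] [Module ℝ V]
    (h1 : ∀ (t : ℝ) (v : V), ‖t • v‖ ≤ th t * ‖v‖) (D : AddSubgroup V) (hD : (D : Set V).Countable)
    (E : Set V) (hE : Submodule.span ℝ E = ⊤) (hq : ∀ e ∈ E, ∀ q : ℚ, (q : ℝ) • e ∈ D)
    (h2 : ∀ d ∈ D, ∀ (y : V) (η : ℝ), 0 < η → ∃ (n : ℕ) (A : ℝ) (w : ℕ → V), 1 ≤ A ∧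
      (∀ i, ‖w i‖ < η) ∧ ‖d - A⁻¹ • ∑ i ∈ range n, w i‖ = 0 ∧ ∀ c : ℕ → V, (∀ i, ‖c i‖ < 1) →
        ∃ t : ℝ, ‖y - t • d‖ < ‖y - A⁻¹ • ∑ i ∈ range n, c i‖ + η)
    (h3 : ∀ k, ∃ v : Fin k → V, ∀ a : Fin k → ℝ, ‖∑ i, a i • v i‖ = 0 → ∀ i, a i = 0) :
    ∃ (R : Type) (_ : NormedAddCommGroup R) (_ : Module ℝ R) (_ : ContinuousSMul ℝ R),
      CompleteSpace R ∧ TopologicalSpace.SeparableSpace R ∧
      (∀ (t : ℝ) (v : R), ‖t • v‖ ≤ th t * ‖v‖) ∧ (∀ T : R →L[ℝ] R, ∃ c : ℝ, ∀ v, T v = c • v) ∧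
      ¬ FiniteDimensional ℝ R := by
  have : UniformContinuousConstSMul ℝ V := ⟨fun t => (LipschitzWith.of_dist_le_mul
    (K := ⟨th t, th_nonneg t⟩) fun a b => by
      rw [dist_eq_norm, dist_eq_norm, ← smul_sub]; exact h1 _ _).uniformContinuous⟩
  have H1 : ∀ (t : ℝ) (v : Completion V), ‖t • v‖ ≤ th t * ‖v‖ := fun t v =>
    Completion.induction_on v (isClosed_le (continuous_const_smul t).norm
      (continuous_const.mul continuous_norm)) fun a => by
      rw [← Completion.coe_smul, Completion.norm_coe, Completion.norm_coe]; exact h1 t a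
  have cs : ContinuousSMul ℝ (Completion V) := ⟨continuous_iff_continuousAt.2 fun p => by
    refine tendsto_iff_norm_sub_tendsto_zero.2 (squeeze_zero (fun _ => norm_nonneg _)
      (g := fun r => th r.1 * ‖r.2 - p.2‖ + th (r.1 - p.1) * ‖p.2‖) (fun r => ?_) ?_)
    · rw [show r.1 • r.2 - p.1 • p.2 = r.1 • (r.2 - p.2) + (r.1 - p.1) • p.2 by
        rw [smul_sub, sub_smul]; abel]
      exact (norm_add_le _ _).trans (add_le_add (H1 _ _) (H1 _ _))
    · have := th_cont
      exact Continuous.tendsto' (by fun_prop) _ _ (by simp [th_zero])⟩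
  let ι : V →ₗ[ℝ] Completion V :=
    { toFun := (↑), map_add' := Completion.coe_add, map_smul' := Completion.coe_smul }
  have nι : ∀ v, ‖ι v‖ = ‖v‖ := Completion.norm_coe
  have dι : DenseRange ι := Completion.denseRange_coe
  have dD : Dense (D.map ι.toAddMonoidHom : Set (Completion V)) := by
    have : ∀ v ∈ Submodule.span ℝ E, ∀ t : ℝ, t • ι v ∈ (D.map ι.toAddMonoidHom).topologicalClosure :=
      fun v hv => by
      induction hv using Submodule.span_induction with
      | mem e he =>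
        intro t
        refine Rat.denseRange_cast.induction_on t ((AddSubgroup.isClosed_topologicalClosure _).preimage
          (by fun_prop)) fun q => AddSubgroup.le_topologicalClosure _ ⟨_, hq e he q, map_smul ι _ _⟩
      | zero => simp
      | add a b _ _ ha hb =>
        exact fun t => by rw [map_add, smul_add]; exact AddSubgroup.add_mem _ (ha t) (hb t)
      | smul s a _ ha => exact fun t => by rw [map_smul, smul_smul]; exact ha _
    exact fun v => dι.induction_on v isClosed_closure fun a =>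
      one_smul ℝ (ι a) ▸ this a (hE ▸ Submodule.mem_top) 1
  refine ⟨Completion V, inferInstance, inferInstance, cs, inferInstance,
    ⟨_, hD.image _, dD⟩, H1, fun T => ?_, fun hf => ?_⟩
  · obtain ⟨δ, δ0, hδ⟩ := Metric.continuousAt_iff.1 (T.continuous.continuousAt (x := 0)) 1 one_pos
    simp only [map_zero, dist_zero_right] at hδ
    obtain ⟨c, hc⟩ := scal (T : Completion V →ₗ[ℝ] Completion V) (D.map ι.toAddMonoidHom) (by
      rintro _ ⟨d, hd, rfl⟩
      suffices h : T (ι d) ∈ closure (Submodule.span ℝ {ι d} : Set (Completion V)) by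
        rw [(Submodule.closed_of_finiteDimensional _).closure_eq] at h
        obtain ⟨t, ht⟩ := Submodule.mem_span_singleton.1 h
        exact ⟨t, ht.symm⟩
      refine Metric.mem_closure_iff.2 fun ε hε => ?_
      obtain ⟨y, hy⟩ := dι.exists_dist_lt (T (ι d)) (show 0 < ε / 5 by positivity)
      obtain ⟨n, A, w, A1, w1, w2, w3⟩ := h2 d hd y (min δ (ε / 5)) (by positivity)
      have hc : ∀ i, ∃ c, ‖c‖ < 1 ∧ ‖T (ι (w i)) - ι c‖ < ε / 5 / (n + 1) := fun i => by
        have := hδ (x := ι (w i)) (by rw [nι]; exact (w1 i).trans_le (min_le_left _ _))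
        obtain ⟨c, hc⟩ := dι.exists_dist_lt (T (ι (w i)))
          (show 0 < min (1 - ‖T (ι (w i))‖) (ε / 5 / (n + 1)) from lt_min (by linarith) (by positivity))
        rw [dist_eq_norm, lt_min_iff] at hc
        exact ⟨c, by linarith [norm_sub_norm_le (ι c) (T (ι (w i))), nι c,
          norm_sub_rev (ι c) (T (ι (w i))), hc.1], hc.2⟩
      choose c c1 c2 using hc
      obtain ⟨t, ht⟩ := w3 c c1
      refine ⟨t • ι d, Submodule.smul_mem _ _ (Submodule.mem_span_singleton_self _), ?_⟩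
      rw [← nι, norm_eq_zero, map_sub, sub_eq_zero] at w2
      have e1 : ‖T (ι d) - ι (A⁻¹ • ∑ i ∈ range n, c i)‖ ≤ 2 * (ε / 5) := by
        rw [w2]
        simp only [map_smul, map_sum, ← smul_sub, ← sum_sub_distrib]
        refine (H1 _ _).trans (mul_le_mul ?_ ((norm_sum_le _ _).trans
          ((sum_le_sum fun i _ => (c2 i).le).trans ?_)) (norm_nonneg _) zero_le_two)
        · have : |A⁻¹| ≤ 1 := by
            rw [abs_of_nonneg (by positivity)]; exact inv_le_one_of_one_le₀ A1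
          unfold th; linarith [Real.sqrt_le_one.2 this]
        · rw [sum_const, card_range, nsmul_eq_mul, ← mul_div_assoc, div_le_iff₀ (by positivity)]
          nlinarith
      rw [← nι, ← nι (y - A⁻¹ • _), map_sub, map_sub, map_smul] at ht
      rw [dist_eq_norm] at hy ⊢
      generalize ι (A⁻¹ • ∑ i ∈ range n, c i) = z at *
      linarith [norm_sub_le_norm_sub_add_norm_sub (T (ι d)) (ι y) (t • ι d), min_le_right δ (ε / 5),
        norm_sub_le_norm_sub_add_norm_sub (ι y) (T (ι d)) z, norm_sub_rev (ι y) (T (ι d))])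
    exact ⟨c, fun v => (isClosed_eq T.continuous (continuous_const_smul c)).closure_subset_iff.2 hc (dD v)⟩
  · obtain ⟨v, hv⟩ := h3 (Module.finrank ℝ (Completion V) + 1)
    have := (Fintype.linearIndependent_iff.2 fun a ha => hv a (by
      rw [← nι, map_sum]; simp only [map_smul]; exact norm_eq_zero.2 ha) :
        LinearIndependent ℝ fun i => ι (v i)).fintype_card_le_finrank
    simp at this

theorem rigid : ∃ (R : Type) (_ : NormedAddCommGroup R) (_ : Module ℝ R) (_ : ContinuousSMul ℝ R),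
    CompleteSpace R ∧ TopologicalSpace.SeparableSpace R ∧
    (∀ (t : ℝ) (v : R), ‖t • v‖ ≤ th t * ‖v‖) ∧ (∀ T : R →L[ℝ] R, ∃ c : ℝ, ∀ v, T v = c • v) ∧
    ¬ FiniteDimensional ℝ R := by
  classical
  let m : (ℕ × ℕ →₀ ℚ) →+ F := Finsupp.mapRange.addMonoidHom (Rat.castHom ℝ).toAddMonoidHom
  obtain ⟨e, he⟩ := exists_surjective_nat (ℕ × ℕ →₀ ℚ)
  obtain ⟨P, hP⟩ := par (fun k => if m (e k.unpair.1) ∈ low k then m (e k.unpair.1) else 0)
    fun k => by
      split_ifs with h
      exacts [h, Submodule.zero_mem _]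
  let _ : SeminormedAddCommGroup F := AddGroupSeminorm.toSeminormedAddCommGroup
    ⟨P.N, P.N_S P.S.zero_mem, P.N_add, P.N_neg⟩
  refine gen F P.N_smul m.range (Set.countable_range m) _ Finsupp.basisSingleOne.span_eq
    ?_ ?_ fun k => ⟨_, P.indep k⟩
  · rintro _ ⟨a, rfl⟩ q
    exact ⟨Finsupp.single a q, by simp [m]⟩
  · rintro _ ⟨d, rfl⟩ y η hη
    obtain ⟨a, rfl⟩ := he d
    obtain ⟨b, hb⟩ := eventually_atTop.1 ((low_ev y).and ((low_ev (m (e a))).and
      ((tendsto_one_div_add_atTop_nhds_zero_nat (𝕜 := ℝ)).eventually (gt_mem_nhds hη))))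
    obtain ⟨h1, h2, h3⟩ := hb _ (Nat.right_le_pair a b)
    have := P.core h1 h3
    rw [hP] at this
    simp only [Nat.unpair_pair, h2, if_true] at this
    exact this

end Pool.Agent.H.MP_f53fb8_an
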